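import Pool.Agent.Helper49.LT.StC

/-!
# Project LT: the main inequality (module TIN)
-/

open MeasureTheory Set Filter Metric

namespace Pool.Agent.Helper32.LT

open Helper49.LT Helper97.CB

private theorem tin_sq_int {η : ℝ} {w w' : ℝ → ℝ} (h : Rough η w w') (a b : ℝ) :
    IntervalIntegrable (fun t => w' t ^ 2) volume a b := by
  have hc : IntervalIntegrable (fun _ : ℝ => η ^ 2) volume a b := intervalIntegrable_const
  refine hc.mono_fun (h.mea.pow_const 2).aestronglyMeasurable ?_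
  filter_upwards with t
  rw [Real.norm_eq_abs, Real.norm_eq_abs, abs_pow, abs_pow, abs_of_nonneg h.eta_nonneg]
  exact pow_le_pow_left₀ (abs_nonneg _) (h.bdd' t) 2

private theorem tin_q2_nonneg (w : ℝ → ℝ) : 0 ≤ q2 w :=
  intervalIntegral.integral_nonneg (by positivity) (fun t _ => sq_nonneg _)

private theorem tin_q2 {η : ℝ} {w w' : ℝ → ℝ} (h : Rough η w w')
    (hm : ∫ t in (0 : ℝ)..(2 * Real.pi), w t = 0) : q2 w ≤ 40 * q2 w' := by
  have hpi := Real.pi_pos
  have hpi2 := Real.pi_lt_d2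
  have h2 : (0 : ℝ) ≤ 2 * Real.pi := by positivity
  have hia : IntervalIntegrable (fun t => |w' t|) volume 0 (2 * Real.pi) :=
    (h.int' 0 (2 * Real.pi)).abs
  have his := tin_sq_int h 0 (2 * Real.pi)
  set N : ℝ := ∫ t in (0 : ℝ)..(2 * Real.pi), |w' t| with hN
  have hN0 : 0 ≤ N := intervalIntegral.integral_nonneg h2 fun t _ => abs_nonneg _
  have h1 : ∀ t ∈ Icc (0 : ℝ) (2 * Real.pi), ∀ s ∈ Icc (0 : ℝ) (2 * Real.pi), |w t - w s| ≤ N := by
    intro t ht s hs
    rw [← h.ftc s t]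
    have e1 : ‖∫ u in s..t, w' u‖ ≤ |∫ u in s..t, ‖w' u‖| :=
      intervalIntegral.norm_integral_le_abs_integral_norm
    have e2 : |∫ u in s..t, ‖w' u‖| ≤ |∫ u in (0 : ℝ)..(2 * Real.pi), ‖w' u‖| := by
      apply intervalIntegral.abs_integral_mono_interval
      · rw [uIoc_of_le h2]
        intro u hu
        rw [mem_uIoc] at hu
        rcases hu with hu | hu
        · exact ⟨lt_of_le_of_lt hs.1 hu.1, hu.2.trans ht.2⟩
        · exact ⟨lt_of_le_of_lt ht.1 hu.1, hu.2.trans hs.2⟩
      · exact Eventually.of_forall fun u => norm_nonneg _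
      · exact (h.int' 0 (2 * Real.pi)).norm
    have e3 : |∫ u in (0 : ℝ)..(2 * Real.pi), ‖w' u‖| = N := by
      simp only [Real.norm_eq_abs]
      rw [abs_of_nonneg hN0]
    rw [← Real.norm_eq_abs]
    linarith
  have h3 : ∀ t ∈ Icc (0 : ℝ) (2 * Real.pi), |w t| ≤ N := by
    intro t ht
    have e1 : ∫ s in (0 : ℝ)..(2 * Real.pi), (w t - w s) = 2 * Real.pi * w t := by
      rw [intervalIntegral.integral_sub intervalIntegrable_const (h.int _ _), hm,
        intervalIntegral.integral_const]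
      simp
    have e2 : |∫ s in (0 : ℝ)..(2 * Real.pi), (w t - w s)| ≤ ∫ s in (0 : ℝ)..(2 * Real.pi), N := by
      refine (intervalIntegral.abs_integral_le_integral_abs h2).trans ?_
      apply intervalIntegral.integral_mono_on h2
      · exact (intervalIntegrable_const.sub (h.int _ _)).abs
      · exact intervalIntegrable_const
      · intro s hs
        exact h1 t ht s hs
    rw [e1, intervalIntegral.integral_const, abs_mul, abs_of_nonneg h2, sub_zero, smul_eq_mul] at e2
    exact le_of_mul_le_mul_left e2 (by positivity)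
  have h4 : N ^ 2 ≤ 2 * Real.pi * q2 w' := by
    have e1 : 0 ≤ ∫ t in (0 : ℝ)..(2 * Real.pi), (|w' t| - N / (2 * Real.pi)) ^ 2 :=
      intervalIntegral.integral_nonneg h2 fun t _ => sq_nonneg _
    have e2 : ∫ t in (0 : ℝ)..(2 * Real.pi), (|w' t| - N / (2 * Real.pi)) ^ 2 =
        q2 w' - N ^ 2 / (2 * Real.pi) := by
      have e3 : ∀ t, (|w' t| - N / (2 * Real.pi)) ^ 2 =
          w' t ^ 2 - (2 * (N / (2 * Real.pi))) * |w' t| + (N / (2 * Real.pi)) ^ 2 := by
        intro t
        have := sq_abs (w' t)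
        nlinarith
      simp only [e3]
      rw [intervalIntegral.integral_add (his.sub (hia.const_mul _)) intervalIntegrable_const,
        intervalIntegral.integral_sub his (hia.const_mul _), intervalIntegral.integral_const_mul,
        intervalIntegral.integral_const, ← hN, smul_eq_mul, sub_zero]
      unfold q2
      field_simp
      ring
    rw [e2] at e1
    have e4 : N ^ 2 / (2 * Real.pi) ≤ q2 w' := by linarith
    rw [div_le_iff₀ (by positivity)] at e4
    linarith
  have h5 : q2 w ≤ ∫ t in (0 : ℝ)..(2 * Real.pi), N ^ 2 := by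
    unfold q2
    apply intervalIntegral.integral_mono_on h2
    · exact (h.con.pow 2).intervalIntegrable _ _
    · exact intervalIntegrable_const
    · intro t ht
      have := h3 t ht
      rw [← sq_abs]
      exact pow_le_pow_left₀ (abs_nonneg _) this 2
  rw [intervalIntegral.integral_const, sub_zero, smul_eq_mul] at h5
  have h6 := tin_q2_nonneg w'
  have h7 : 2 * Real.pi * N ^ 2 ≤ 2 * Real.pi * (2 * Real.pi * q2 w') :=
    mul_le_mul_of_nonneg_left h4 h2
  have h8 : 4 * Real.pi ^ 2 ≤ 40 := by nlinarith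
  nlinarith [mul_le_mul_of_nonneg_right h8 h6]

/-- the upper bound for the area term -/
private theorem tin_area {η : ℝ} {x : ℂ × ℂ} {w w' : ℝ → ℝ} (h : Rough η w w') (hη : η ≤ 1 / 100)
    (hx : ‖x‖ ≤ 1 / 100) (μ : ℝ) (hμ : 0 ≤ μ) :
    3 / 2 * (1 + μ) * ∫ t in (0 : ℝ)..(2 * Real.pi), (1 + w t) ^ 2 * h0 (rot t x) ≤
    3 / 2 * (∫ t in (0 : ℝ)..(2 * Real.pi), h0 (rot t x))
      + 3 * (∫ t in (0 : ℝ)..(2 * Real.pi), w t * h0 (rot t x)) + 3 / 2 * q2 w
      + 45 * (‖x‖ * q2 w) + 76 * μ := by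
  have hpi := Real.pi_pos
  have hpi2 := Real.pi_lt_d2
  have h2 : (0 : ℝ) ≤ 2 * Real.pi := by positivity
  have hc0 : Continuous fun t => h0 (rot t x) := continuous_h0.comp (continuous_rot x)
  have hcw := h.con
  have hb : ∀ t, |h0 (rot t x) - 1| ≤ 30 * ‖x‖ := by
    intro t
    have := abs_h0_sub (rot t x) (by rw [norm_rot]; linarith)
    rwa [norm_rot] at this
  have e1 : ∫ t in (0 : ℝ)..(2 * Real.pi), (1 + w t) ^ 2 * h0 (rot t x) =
      (∫ t in (0 : ℝ)..(2 * Real.pi), h0 (rot t x))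
      + 2 * (∫ t in (0 : ℝ)..(2 * Real.pi), w t * h0 (rot t x))
      + ∫ t in (0 : ℝ)..(2 * Real.pi), w t ^ 2 * h0 (rot t x) := by
    rw [← intervalIntegral.integral_const_mul, ← intervalIntegral.integral_add,
      ← intervalIntegral.integral_add]
    · apply intervalIntegral.integral_congr
      intro t _
      ring
    · exact (by fun_prop : Continuous _).intervalIntegrable _ _
    · exact (by fun_prop : Continuous _).intervalIntegrable _ _
    · exact (by fun_prop : Continuous _).intervalIntegrable _ _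
    · exact (by fun_prop : Continuous _).intervalIntegrable _ _
  have e2 : ∫ t in (0 : ℝ)..(2 * Real.pi), w t ^ 2 * h0 (rot t x) ≤ (1 + 30 * ‖x‖) * q2 w := by
    unfold q2
    rw [← intervalIntegral.integral_const_mul]
    apply intervalIntegral.integral_mono_on h2
    · exact (by fun_prop : Continuous _).intervalIntegrable _ _
    · exact (by fun_prop : Continuous _).intervalIntegrable _ _
    · intro t _
      have h3 := (abs_le.1 (hb t)).2
      nlinarith [sq_nonneg (w t)]
  have e3 : ∫ t in (0 : ℝ)..(2 * Real.pi), (1 + w t) ^ 2 * h0 (rot t x) ≤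
      ∫ t in (0 : ℝ)..(2 * Real.pi), (8 : ℝ) := by
    apply intervalIntegral.integral_mono_on h2
    · exact (by fun_prop : Continuous _).intervalIntegrable _ _
    · exact intervalIntegrable_const
    · intro t _
      have h3 := abs_le.1 (hb t)
      have h4 := abs_le.1 (h.bdd t)
      have h5 : (1 + w t) ^ 2 ≤ 4 := by nlinarith
      have h6 : h0 (rot t x) ≤ 2 := by linarith
      have h7 : 0 ≤ (1 + w t) ^ 2 := sq_nonneg _
      nlinarith
  rw [intervalIntegral.integral_const, sub_zero, smul_eq_mul] at e3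
  set A := ∫ t in (0 : ℝ)..(2 * Real.pi), (1 + w t) ^ 2 * h0 (rot t x)
  have e4 : 3 / 2 * μ * A ≤ 76 * μ := by
    have : A ≤ 50.4 := by linarith
    nlinarith
  have e5 : 3 / 2 * (1 + μ) * A = 3 / 2 * A + 3 / 2 * μ * A := by ring
  rw [e5]
  linarith

/-- continuity of the base chord -/
private theorem tin_cc {r : ℝ} {sp sm : (ℂ × ℂ) × (ℝ × ℝ) → ℝ} (h : Chd r sp sm) {x : ℂ × ℂ}
    (hx : ‖x‖ < r) : Continuous fun u => cc sp (rot u x, 0) := by
  have hr := continuous_rot x
  have h1 : Continuous fun u => sp (rot u x, 0) := by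
    apply h.cp.continuousOn.comp_continuous (by fun_prop)
    intro u
    rw [mem_ball_zero_iff, Prod.norm_def]
    simp only [norm_rot, norm_zero]
    exact max_lt hx h.pos
  have h2 : Continuous fun p : (ℂ × ℂ) × ℝ => zh p.1 p.2 := contDiff_zh.continuous
  have h3 : Continuous fun u => zh (rot u x) (sp (rot u x, 0)) :=
    h2.comp (hr.prodMk h1)
  unfold cc
  simp only [Prod.fst_zero, add_zero, Complex.ofReal_one, one_mul]
  exact Complex.continuous_re.comp h3

theorem hTIN (h₁ : StGeo) (h₂ : StCi1) (h₃ : StCi2) (h₄ : StTip) (h₅ : StTp2) : StTin := by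
  intro r sp sm hC r' C' κp κm hr' hT
  obtain ⟨C1, r1, hC1, hr1, H1⟩ := h₂ r sp sm hC r' C' κp κm hr' hT
  obtain ⟨C2, r2, hC2, hr2, H2⟩ := h₃ r sp sm hC r' C' κp κm hr' hT
  obtain ⟨C3, r3, hC3, hr3, H3⟩ := h₅
  have hrp := hC.pos
  refine ⟨C3 + C2 * (1 + C1) + 1876, min (min r1 r2) (min r3 (min (1 / 100) (r / 2))), by positivity,
    by positivity, ?_⟩
  intro η μ K x w w' hx hη hμ0 hμ1 S
  have hx1 : ‖x‖ ≤ r1 := hx.trans ((min_le_left _ _).trans (min_le_left _ _))
  have hx2 : ‖x‖ ≤ r2 := hx.trans ((min_le_left _ _).trans (min_le_right _ _))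
  have hx3 : ‖x‖ ≤ r3 := hx.trans ((min_le_right _ _).trans (min_le_left _ _))
  have hx4 : ‖x‖ ≤ 1 / 100 := hx.trans ((min_le_right _ _).trans ((min_le_right _ _).trans
    (min_le_left _ _)))
  have hx5 : ‖x‖ ≤ r / 2 := hx.trans ((min_le_right _ _).trans ((min_le_right _ _).trans
    (min_le_right _ _)))
  have hη1 : η ≤ r1 := hη.trans ((min_le_left _ _).trans (min_le_left _ _))
  have hη2 : η ≤ r2 := hη.trans ((min_le_left _ _).trans (min_le_right _ _))
  have hη3 : η ≤ r3 := hη.trans ((min_le_right _ _).trans (min_le_left _ _))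
  have hη4 : η ≤ 1 / 100 := hη.trans ((min_le_right _ _).trans ((min_le_right _ _).trans
    (min_le_left _ _)))
  obtain ⟨c1, c2, c3⟩ := H1 K x w w' η hx1 hη1 S.rough S.bd
  have b2 := H2 C1 η x w w' hC1.le hx2 hη2 S.rough S.mean
  have b3 := H3 x w w' η hx3 hη3 S.rough
  obtain ⟨d1, d2, d3, d4⟩ := h₄ K x w w' η S.body S.inn S.out hx4 hη4 S.rough S.bd
  have b1 := h₁ K μ (hs K) (cf C1 η sp sm κp κm w x) (fun _ => 1) S.body S.inn S.sml d1 c1
    continuous_const d2 c2 (fun _ => zero_le_one) (fun _ => rfl) d3 c3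
  simp only [mul_one] at b1
  rw [intervalIntegral.integral_add (d1.intervalIntegrable _ _) (c1.intervalIntegrable _ _),
    intervalIntegral.integral_const, S.ar, sub_zero, smul_eq_mul, mul_one] at b1
  have hpi := Real.pi_pos
  have e1 : 3 / (2 * Real.pi) * (1 + μ) *
      (1 / 2 * ∫ t in (0 : ℝ)..(2 * Real.pi), (1 + w t) ^ 2 * h0 (rot t x)) * (2 * Real.pi) =
      3 / 2 * (1 + μ) * ∫ t in (0 : ℝ)..(2 * Real.pi), (1 + w t) ^ 2 * h0 (rot t x) := by
    field_simp
  rw [e1] at b1
  have b4 := tin_area S.rough hη4 hx4 μ hμ0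
  have b5 := tin_q2 S.rough S.mean
  have q0 := tin_q2_nonneg w'
  have η0 := S.rough.eta_nonneg
  have x0 := norm_nonneg x
  have hcc := tin_cc hC (x := x) (by linarith)
  have hch : Continuous fun t => h0 (rot t x) := continuous_h0.comp (continuous_rot x)
  have hcs : Continuous fun t => sg (rot t x) := continuous_sg.comp (continuous_rot x)
  have e2 : tB sp x = (∫ u in (0 : ℝ)..(2 * Real.pi), cc sp (rot u x, 0))
      + (∫ u in (0 : ℝ)..(2 * Real.pi), sg (rot u x))
      - 3 / 2 * ∫ u in (0 : ℝ)..(2 * Real.pi), h0 (rot u x) := by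
    unfold tB
    rw [intervalIntegral.integral_sub, intervalIntegral.integral_add,
      intervalIntegral.integral_const_mul]
    · exact hcc.intervalIntegrable _ _
    · exact hcs.intervalIntegrable _ _
    · exact (hcc.add hcs).intervalIntegrable _ _
    · exact (hch.const_mul (3 / 2)).intervalIntegrable _ _
  have e3 : ‖x‖ * q2 w ≤ 40 * ((η + ‖x‖) * q2 w') := by
    have f1 : ‖x‖ * q2 w ≤ ‖x‖ * (40 * q2 w') := mul_le_mul_of_nonneg_left b5 x0
    have f2 : 0 ≤ η * q2 w' := mul_nonneg η0 q0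
    nlinarith
  have e4 : 0 ≤ (η + ‖x‖) * q2 w' := mul_nonneg (add_nonneg η0 x0) q0
  have e5 : 0 ≤ (C3 + C2 * (1 + C1) + 1800) * μ := by positivity
  rw [e2]
  unfold lL qQ
  have e6 : C3 * (η + ‖x‖) * q2 w' = C3 * ((η + ‖x‖) * q2 w') := by ring
  have e7 : C2 * ((1 + C1) * ((η + ‖x‖) * q2 w')) = C2 * (1 + C1) * ((η + ‖x‖) * q2 w') := by ring
  rw [e6] at b3
  rw [e7] at b2
  have e8 : (C3 + C2 * (1 + C1) + 1876) * ((η + ‖x‖) * q2 w' + μ) =
      C3 * ((η + ‖x‖) * q2 w') + C2 * (1 + C1) * ((η + ‖x‖) * q2 w') + 1876 * ((η + ‖x‖) * q2 w')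
      + (C3 + C2 * (1 + C1) + 1800) * μ + 76 * μ := by ring
  rw [e8]
  linarith

end Pool.Agent.Helper32.LT
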